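import Pool.Agent.Q152.ProdInter

/-!
MP_078e15_co, Q1: every set `X` of positive integers with `1 ∈ X` is the product intersection set of
a decreasing, not eventually constant sequence of subsets of a semigroup; one countable semigroup
realises all `X`.
-/

namespace Pool.Agent.Results.MP_078e15_co.AllSetsOccur

open Pool.Agent.Q152.ProdInter

/-- A sequence of sets is asymptotically strictly decreasing if it is decreasing and
`A (q + 1) ≠ A q` for infinitely many `q`. -/
def AsympStrictlyDecreasing {S : Type*} (A : ℕ → Set S) : Prop :=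
  (∀ q, A (q + 1) ⊆ A q) ∧ ∀ N, ∃ q, N ≤ q ∧ A (q + 1) ≠ A q

/-- There is one countable semigroup `S` such that the sets `H(A_q)`, for asymptotically strictly
decreasing sequences `(A_q)` of subsets of `S`, are exactly all sets of positive integers that
contain `1`. -/
theorem result : ∃ (S : Type) (_ : Semigroup S), Countable S ∧
    ∀ X : Set ℕ, (0 ∉ X ∧ 1 ∈ X) ↔
      ∃ A : ℕ → Set S, AsympStrictlyDecreasing A ∧ interSet A = X := by
  refine ⟨MU V, inferInstance, inferInstance, fun X => ⟨?_, ?_⟩⟩
  · rintro ⟨h0, h1⟩
    refine ⟨fam X, ⟨fun q => fam_anti X (Nat.le_succ q), fun N => ⟨N, le_rfl, ?_⟩⟩,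
      interSet_fam X h0 h1⟩
    intro h
    have := fam_injective X h
    omega
  · rintro ⟨A, -, rfl⟩
    exact ⟨fun h => absurd h.1 (by omega), le_rfl, rfl⟩

end Pool.Agent.Results.MP_078e15_co.AllSetsOccur
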